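import Pool.Agent.W763.PB.Stm

/-! Project PB, part Z5: pointwise growth of the weight. -/

set_option autoImplicit false

namespace Pool.Agent.W753.PB

open Pool.Agent.W763.PB

noncomputable section

/-- exponent -/
def ex (b m : ℕ) (v : ℝ) : ℝ := min 1 (((b : ℝ) * m - v) / (((b : ℝ) - 2) * (m : ℝ)))

theorem ww_eq (k : ℝ) (b m : ℕ) [NeZero b] [NeZero m] (hb : 2 < (b : ℝ)) (t : ZMod (b * m)) :
    ww k b m t = k ^ (ex b m t.val) := by
  have hm : (0 : ℝ) < m := by exact_mod_cast Nat.pos_of_ne_zero (NeZero.ne m)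
  have hden : 0 < ((b : ℝ) - 2) * (m : ℝ) := mul_pos (by linarith) hm
  unfold ww ex
  split_ifs with h
  · have h' : (t.val : ℝ) < 2 * m := by exact_mod_cast h
    rw [min_eq_left]
    · simp
    · rw [le_div_iff₀ hden]
      nlinarith
  · have h' : 2 * (m : ℝ) ≤ (t.val : ℝ) := by
      push Not at h
      exact_mod_cast h
    rw [min_eq_right]
    · push_cast
      rfl
    · rw [div_le_one hden]
      nlinarith

theorem val_add_cast (N : ℕ) [NeZero N] (t : ZMod N) (n : ℕ) :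
    (t + (n : ZMod N)).val = (t.val + n % N) % N := by
  rw [ZMod.val_add, ZMod.val_natCast]

theorem ex_nonneg (b m : ℕ) [NeZero b] [NeZero m] (hb : 2 < (b : ℝ)) (t : ZMod (b * m)) :
    0 ≤ ex b m t.val := by
  have hm : (0 : ℝ) < m := by exact_mod_cast Nat.pos_of_ne_zero (NeZero.ne m)
  have hden : 0 < ((b : ℝ) - 2) * (m : ℝ) := mul_pos (by linarith) hm
  have ht : (t.val : ℝ) < (b : ℝ) * m := by exact_mod_cast ZMod.val_lt t
  unfold ex
  refine le_min zero_le_one (div_nonneg (by linarith) hden.le)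

theorem ex_growth (b m : ℕ) [NeZero b] [NeZero m] (hb : 2 < (b : ℝ)) (n : ℕ) (t : ZMod (b * m)) :
    ex b m t.val ≤ min 1 ((n : ℝ) / (((b : ℝ) - 2) * (m : ℝ)))
      + ex b m (t + (n : ZMod (b * m))).val := by
  have hm : (0 : ℝ) < m := by exact_mod_cast Nat.pos_of_ne_zero (NeZero.ne m)
  have hden : 0 < ((b : ℝ) - 2) * (m : ℝ) := mul_pos (by linarith) hm
  have h0 := ex_nonneg b m hb (t + (n : ZMod (b * m)))
  have h1 : ex b m t.val ≤ 1 := min_le_left _ _
  rw [min_def]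
  split_ifs with hn
  · linarith
  · have hv := val_add_cast (b * m) t n
    have hNpos : 0 < b * m := Nat.pos_of_ne_zero (NeZero.ne _)
    have ht : t.val < b * m := ZMod.val_lt t
    set n' : ℕ := n % (b * m) with hn'
    have hn'lt : n' < b * m := Nat.mod_lt _ hNpos
    have hn'le : n' ≤ n := Nat.mod_le _ _
    have hn'leR : (n' : ℝ) ≤ n := by exact_mod_cast hn'le
    have hdd : (n' : ℝ) / (((b : ℝ) - 2) * (m : ℝ)) ≤ (n : ℝ) / (((b : ℝ) - 2) * (m : ℝ)) :=
      div_le_div_of_nonneg_right hn'leR hden.le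
    have hnn : 0 ≤ (n : ℝ) / (((b : ℝ) - 2) * (m : ℝ)) := by positivity
    by_cases hlt : t.val + n' < b * m
    · rw [Nat.mod_eq_of_lt hlt] at hv
      rw [hv]
      unfold ex
      push_cast
      have e1 : ((b : ℝ) * m - ((t.val : ℝ) + n')) / (((b : ℝ) - 2) * (m : ℝ))
          = ((b : ℝ) * m - (t.val : ℝ)) / (((b : ℝ) - 2) * (m : ℝ))
            - (n' : ℝ) / (((b : ℝ) - 2) * (m : ℝ)) := by
        rw [← sub_div]
        congr 1
        ring
      rw [e1]
      rcases le_total 1 (((b : ℝ) * m - (t.val : ℝ)) / (((b : ℝ) - 2) * (m : ℝ))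
            - (n' : ℝ) / (((b : ℝ) - 2) * (m : ℝ))) with h2 | h2
      · rw [min_eq_left h2]
        have := min_le_left (1 : ℝ) (((b : ℝ) * m - (t.val : ℝ)) / (((b : ℝ) - 2) * (m : ℝ)))
        linarith
      · rw [min_eq_right h2]
        have := min_le_right (1 : ℝ) (((b : ℝ) * m - (t.val : ℝ)) / (((b : ℝ) - 2) * (m : ℝ)))
        linarith
    · push Not at hlt
      have hltR : (b : ℝ) * m ≤ (t.val : ℝ) + n' := by exact_mod_cast hlt
      have h3 : ex b m t.val ≤ ((b : ℝ) * m - (t.val : ℝ)) / (((b : ℝ) - 2) * (m : ℝ)) :=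
        min_le_right _ _
      have h4 : ((b : ℝ) * m - (t.val : ℝ)) / (((b : ℝ) - 2) * (m : ℝ))
          ≤ (n' : ℝ) / (((b : ℝ) - 2) * (m : ℝ)) :=
        div_le_div_of_nonneg_right (by linarith) hden.le
      linarith

theorem z5 : S_R2 → S_Z5 := by
  intro hR2 k b m _ _ hk hb
  obtain ⟨hb64, hsq, -, -, -⟩ := hR2 k b hk hb
  have hb2 : 2 < (b : ℝ) := by linarith
  have hk1 : 1 ≤ k := by linarith
  have hk0 : 0 < k := by linarith
  have hm : (0 : ℝ) < m := by exact_mod_cast Nat.pos_of_ne_zero (NeZero.ne m)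
  have hden : 0 < ((b : ℝ) - 2) * (m : ℝ) := mul_pos (by linarith) hm
  refine ⟨?_, ?_, ?_, ?_⟩
  · intro n t
    rw [ww_eq k b m hb2, ww_eq k b m hb2, kh, ← Real.rpow_add hk0]
    exact Real.rpow_le_rpow_of_exponent_le hk1 (ex_growth b m hb2 n t)
  · intro t
    rw [ww_eq k b m hb2]
    refine ⟨Real.one_le_rpow hk1 (ex_nonneg b m hb2 t), ?_⟩
    calc k ^ (ex b m t.val) ≤ k ^ (1 : ℝ) :=
          Real.rpow_le_rpow_of_exponent_le hk1 (min_le_left _ _)
      _ = k := Real.rpow_one k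
  · intro n
    unfold kh
    refine ⟨Real.one_le_rpow hk1 (le_min zero_le_one (by positivity)), ?_⟩
    calc k ^ (min 1 ((n : ℝ) / (((b : ℝ) - 2) * (m : ℝ)))) ≤ k ^ (1 : ℝ) :=
          Real.rpow_le_rpow_of_exponent_le hk1 (min_le_left _ _)
      _ = k := Real.rpow_one k
  · intro n hn
    unfold kh
    have hnR : (n : ℝ) ≤ m := by exact_mod_cast hn
    have h1 : min 1 ((n : ℝ) / (((b : ℝ) - 2) * (m : ℝ))) ≤ 1 / ((b : ℝ) - 2) := by
      refine (min_le_right _ _).trans ?_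
      rw [div_le_div_iff₀ hden (by linarith)]
      nlinarith
    have h2 : Real.sqrt 2 ≤ 2 := by
      rw [Real.sqrt_le_left (by norm_num)]
      norm_num
    exact (Real.rpow_le_rpow_of_exponent_le hk1 h1).trans (hsq.trans h2)

end

end Pool.Agent.W753.PB
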